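import Mathlib

set_option autoImplicit false

/-!
# Thue chromatic number of the lexicographic product of `C₇` and `E₂`
-/

namespace Pool.Agent.Q271.TH

/-- The colouring `c` of the vertices of `G` is nonrepetitive: there is no path (a list of
different vertices, consecutive ones adjacent) with `2t` vertices, `t ≥ 1`, whose first half and
second half have the same colour sequence. -/
def Nonrep {V C : Type*} (G : SimpleGraph V) (c : V → C) : Prop :=
  ∀ l : List V, l.Nodup → l.IsChain G.Adj → ∀ t : ℕ, 1 ≤ t → l.length = 2 * t →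
    (l.map c).take t ≠ (l.map c).drop t

/-- The Thue chromatic number. -/
noncomputable def thue {V : Type*} (G : SimpleGraph V) : ℕ :=
  sInf {k : ℕ | ∃ c : V → Fin k, Nonrep G c}

/-- The lexicographic product `G[H]`. -/
def lex {V W : Type*} (G : SimpleGraph V) (H : SimpleGraph W) : SimpleGraph (V × W) where
  Adj x y := G.Adj x.1 y.1 ∨ (x.1 = y.1 ∧ H.Adj x.2 y.2)
  symm := ⟨fun _ _ h => h.imp (fun h => h.symm) (fun h => ⟨h.1.symm, h.2.symm⟩)⟩
  loopless := ⟨fun x h => by
    rcases h with h | h
    · exact G.loopless.irrefl _ h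
    · exact H.loopless.irrefl _ h.2⟩

lemma nonrep_of_injective {V C : Type*} (G : SimpleGraph V) {c : V → C}
    (hc : Function.Injective c) : Nonrep G c := by
  intro l hl _ t ht hlen h
  have hnd : (l.map c).Nodup := hl.map hc
  have h1 : (l.map c).take t ≠ [] := by
    intro he
    have := congrArg List.length he
    rw [List.length_take, List.length_map, hlen, List.length_nil] at this
    omega
  obtain ⟨x, hx⟩ := List.exists_mem_of_ne_nil _ h1
  have hx2 : x ∈ (l.map c).drop t := by rw [← h]; exact hx
  exact List.disjoint_take_drop hnd le_rfl hx hx2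

lemma thue_set_nonempty {V : Type*} [Finite V] (G : SimpleGraph V) :
    {k : ℕ | ∃ c : V → Fin k, Nonrep G c}.Nonempty := by
  have := Fintype.ofFinite V
  exact ⟨Fintype.card V, Fintype.equivFin V, nonrep_of_injective G (Fintype.equivFin V).injective⟩

lemma Nonrep.comp {V C D : Type*} {G : SimpleGraph V} {c : V → C} (h : Nonrep G c) {g : C → D}
    (hg : Function.Injective g) : Nonrep G (g ∘ c) := by
  intro l hl hc t ht hlen he
  apply h l hl hc t ht hlen
  have e : l.map (g ∘ c) = (l.map c).map g := by rw [List.map_map]
  rw [e, ← List.map_take, ← List.map_drop] at he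
  exact List.map_injective_iff.mpr hg he

lemma le_thue {V : Type*} [Finite V] {G : SimpleGraph V} {k : ℕ}
    (h : ¬ ∃ c : V → Fin k, Nonrep G c) : k + 1 ≤ thue G := by
  refine le_csInf (thue_set_nonempty G) ?_
  rintro m ⟨c, hc⟩
  by_contra hlt
  push Not at hlt
  exact h ⟨Fin.castLE (Nat.lt_succ_iff.mp hlt) ∘ c, hc.comp (Fin.castLE_injective _)⟩

/-! ### The cycle `C₇` -/

/-- the cycle of length seven -/
def C7 : SimpleGraph (Fin 7) where
  Adj i j := j = i + 1 ∨ i = j + 1
  symm := ⟨by decide⟩
  loopless := ⟨by decide⟩

instance : DecidableRel C7.Adj := fun i j => inferInstanceAs (Decidable (j = i + 1 ∨ i = j + 1))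

lemma c7_aux : ∀ c0 c1 c2 c3 c4 c5 c6 : Fin 3, ∃ s : Fin 7,
    (![c0, c1, c2, c3, c4, c5, c6] s = ![c0, c1, c2, c3, c4, c5, c6] (s + 1)) ∨
    (![c0, c1, c2, c3, c4, c5, c6] s = ![c0, c1, c2, c3, c4, c5, c6] (s + 2) ∧
      ![c0, c1, c2, c3, c4, c5, c6] (s + 1) = ![c0, c1, c2, c3, c4, c5, c6] (s + 3)) ∨
    (![c0, c1, c2, c3, c4, c5, c6] s = ![c0, c1, c2, c3, c4, c5, c6] (s + 3) ∧
      ![c0, c1, c2, c3, c4, c5, c6] (s + 1) = ![c0, c1, c2, c3, c4, c5, c6] (s + 4) ∧
      ![c0, c1, c2, c3, c4, c5, c6] (s + 2) = ![c0, c1, c2, c3, c4, c5, c6] (s + 5)) := by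
  decide +kernel

lemma c7_chain : ∀ s : Fin 7, ([s, s + 1].Nodup ∧ [s, s + 1].IsChain C7.Adj) ∧
    ([s, s + 1, s + 2, s + 3].Nodup ∧ [s, s + 1, s + 2, s + 3].IsChain C7.Adj) ∧
    ([s, s + 1, s + 2, s + 3, s + 4, s + 5].Nodup ∧
      [s, s + 1, s + 2, s + 3, s + 4, s + 5].IsChain C7.Adj) := by
  decide

lemma c7_not : ¬ ∃ c : Fin 7 → Fin 3, Nonrep C7 c := by
  rintro ⟨c, hc⟩
  have e : c = ![c 0, c 1, c 2, c 3, c 4, c 5, c 6] := by
    funext i
    fin_cases i <;> rfl
  obtain ⟨s, h⟩ := c7_aux (c 0) (c 1) (c 2) (c 3) (c 4) (c 5) (c 6)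
  rw [← e] at h
  obtain ⟨⟨a1, a2⟩, ⟨b1, b2⟩, ⟨d1, d2⟩⟩ := c7_chain s
  rcases h with h | ⟨h1, h2⟩ | ⟨h1, h2, h3⟩
  · exact hc _ a1 a2 1 le_rfl rfl (by simp [h])
  · exact hc _ b1 b2 2 (by norm_num) rfl (by simp [h1, h2])
  · exact hc _ d1 d2 3 (by norm_num) rfl (by simp [h1, h2, h3])

/-! ### The product -/

abbrev P := Fin 7 × Fin 2

/-- adjacency in `C₇[E₂]` as a Boolean function -/
def adjB (x y : P) : Bool := decide (y.1 = x.1 + 1) || decide (x.1 = y.1 + 1)

/-- the colouring with six colours -/
def kol (x : P) : Fin 6 :=
  ![2, 1, 3, 0, 2, 2, 1, 4, 2, 5, 0, 3, 5, 5] ⟨2 * x.1.val + x.2.val, by omega⟩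

/-- all vertices -/
def allV : List P := (List.finRange 7).flatMap fun i => (List.finRange 2).map fun a => (i, a)

lemma mem_allV : ∀ x : P, x ∈ allV := by
  decide

/-- depth first search: `x :: P`, `y :: Q` are the reversed first parts of the two halves of the
path, `q` is the first vertex of the second half. -/
def chk : ℕ → P → List P → P → List P → P → Bool
  | 0, _, _, _, _, _ => false
  | n + 1, x, A, y, B, q => !(adjB x q) &&
      allV.all fun a => !(adjB x a) || decide (a ∈ x :: A) || decide (a ∈ y :: B) ||
        allV.all fun b => !(adjB y b) || decide (b ∈ x :: A) || decide (b ∈ y :: B) ||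
          decide (a = b) || !(decide (kol a = kol b)) || chk n a (x :: A) b (y :: B) q

lemma chk_all : ∀ x y : P, x ≠ y → kol x = kol y → chk 4 x [] y [] y = true := by
  decide +kernel

/-- soundness of the search -/
lemma chk_sound : ∀ (n : ℕ) (x : P) (A : List P) (y : P) (B : List P) (q : P) (A' B' : List P),
    chk n x A y B q = true → A'.length = B'.length → A'.map kol = B'.map kol →
    (A.reverse ++ x :: A' ++ (B.reverse ++ y :: B')).Nodup →
    (A.reverse ++ x :: A' ++ (B.reverse ++ y :: B')).IsChain (lex C7 (⊥ : SimpleGraph (Fin 2))).Adj →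
    (B.reverse ++ y :: B').head? = some q → False := by
  intro n
  induction n with
  | zero => intro x A y B q A' B' h; simp [chk] at h
  | succ n ih =>
    intro x A y B q A' B' h hlen hcol hnd hch hq
    rw [chk, Bool.and_eq_true] at h
    obtain ⟨h1, h2⟩ := h
    have hadj : ∀ a b : P, (lex C7 (⊥ : SimpleGraph (Fin 2))).Adj a b → adjB a b = true := by
      intro a b hab
      rcases hab with hab | hab
      · simpa [adjB, C7] using hab
      · exact absurd hab.2 (by simp)
    cases A' with
    | nil =>
      have hB' : B' = [] := by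
        cases B' with
        | nil => rfl
        | cons b l => simp at hlen
      subst hB'
      -- `x` is adjacent to `q`
      have h3 : (lex C7 (⊥ : SimpleGraph (Fin 2))).Adj x q := by
        rw [List.isChain_append] at hch
        refine hch.2.2 x ?_ q ?_
        · simp
        · exact hq
      rw [hadj _ _ h3] at h1
      exact absurd h1 (by decide)
    | cons a A' =>
      cases B' with
      | nil => simp at hlen
      | cons b B' =>
        -- adjacency
        have hxa : (lex C7 (⊥ : SimpleGraph (Fin 2))).Adj x a := by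
          rw [List.isChain_append] at hch
          have h4 := hch.1
          rw [List.isChain_append] at h4
          have h5 := h4.2.1
          rw [List.isChain_cons_cons] at h5
          exact h5.1
        have hyb : (lex C7 (⊥ : SimpleGraph (Fin 2))).Adj y b := by
          rw [List.isChain_append] at hch
          have h4 := hch.2.1
          rw [List.isChain_append] at h4
          have h5 := h4.2.1
          rw [List.isChain_cons_cons] at h5
          exact h5.1
        have hnd' := hnd
        simp only [List.nodup_append, List.nodup_cons, List.mem_append, List.mem_cons,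
          List.mem_reverse] at hnd'
        have ha1 : a ∉ x :: A := by
          intro h
          rw [List.mem_cons] at h
          rcases h with h | h
          · exact hxa.ne h.symm
          · have := hnd'.1.2.2 a h a (Or.inr (Or.inl rfl))
            exact this rfl
        have ha2 : a ∉ y :: B := by
          intro h
          rw [List.mem_cons] at h
          have h0 : a ∈ B ∨ a = y ∨ a = b ∨ a ∈ B' := by tauto
          exact hnd'.2.2 a (Or.inr (Or.inr (Or.inl rfl))) a h0 rfl
        have hb1 : b ∉ x :: A := by
          intro h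
          rw [List.mem_cons] at h
          have h0 : b ∈ A ∨ b = x ∨ b = a ∨ b ∈ A' := by tauto
          exact hnd'.2.2 b h0 b (Or.inr (Or.inr (Or.inl rfl))) rfl
        have hb2 : b ∉ y :: B := by
          intro h
          rw [List.mem_cons] at h
          rcases h with h | h
          · exact hyb.ne h.symm
          · have := hnd'.2.1.2.2 b h b (Or.inr (Or.inl rfl))
            exact this rfl
        have hab : a ≠ b := by
          intro h
          exact hnd'.2.2 a (Or.inr (Or.inr (Or.inl rfl))) b (Or.inr (Or.inr (Or.inl rfl))) h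
        have hkol : kol a = kol b := by
          simp only [List.map_cons, List.cons.injEq] at hcol
          exact hcol.1
        rw [List.all_eq_true] at h2
        have h3 := h2 a (mem_allV a)
        rw [hadj _ _ hxa, decide_eq_false ha1, decide_eq_false ha2] at h3
        simp only [Bool.not_true, Bool.or_self, Bool.false_or] at h3
        rw [List.all_eq_true] at h3
        have h4 := h3 b (mem_allV b)
        rw [hadj _ _ hyb, decide_eq_false hb1, decide_eq_false hb2, decide_eq_false hab,
          decide_eq_true hkol] at h4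
        simp only [Bool.not_true, Bool.or_self, Bool.false_or] at h4
        refine ih a (x :: A) b (y :: B) q A' B' h4 (by simpa using hlen) ?_ ?_ ?_ ?_
        · simp only [List.map_cons, List.cons.injEq] at hcol
          exact hcol.2
        · simpa using hnd
        · simpa using hch
        · simpa using hq

lemma prod_nonrep : Nonrep (lex C7 (⊥ : SimpleGraph (Fin 2))) kol := by
  intro l hnd hch t ht hlen he
  -- split the list
  have hl : l = l.take t ++ l.drop t := (List.take_append_drop t l).symm
  rw [← List.map_take, ← List.map_drop] at he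
  set A := l.take t with hA
  set B := l.drop t with hB
  have hAl : A.length = t := by rw [hA, List.length_take]; omega
  have hBl : B.length = t := by rw [hB, List.length_drop]; omega
  cases hAc : A with
  | nil => rw [hAc] at hAl; simp at hAl; omega
  | cons x A' =>
    cases hBc : B with
    | nil => rw [hBc] at hBl; simp at hBl; omega
    | cons y B' =>
      rw [hAc, hBc] at he
      simp only [List.map_cons, List.cons.injEq] at he
      rw [hl, hAc, hBc] at hnd hch
      have hxy : x ≠ y := by
        intro h
        rw [List.nodup_append] at hnd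
        exact hnd.2.2 x (by simp) y (by simp) h
      refine chk_sound 4 x [] y [] y A' B' (chk_all x y hxy he.1) ?_ he.2 ?_ ?_ ?_
      · rw [hAc] at hAl
        rw [hBc] at hBl
        simp only [List.length_cons] at hAl hBl
        omega
      · simpa using hnd
      · simpa using hch
      · simp

theorem main : ∃ (G : SimpleGraph (Fin 7)) (H : SimpleGraph (Fin 2)),
    thue (lex G H) < thue H + (thue G - 1) * Fintype.card (Fin 2) := by
  refine ⟨C7, ⊥, ?_⟩
  have h1 : thue (lex C7 (⊥ : SimpleGraph (Fin 2))) ≤ 6 := Nat.sInf_le ⟨kol, prod_nonrep⟩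
  have h2 : 4 ≤ thue C7 := le_thue c7_not
  have h3 : 1 ≤ thue (⊥ : SimpleGraph (Fin 2)) := by
    refine le_thue (k := 0) ?_
    rintro ⟨c, -⟩
    exact (c 0).elim0
  simp only [Fintype.card_fin]
  omega

end Pool.Agent.Q271.TH
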